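import Pool.Agent.N829.PW.Den
import Pool.Agent.N829.PW.Max

/-!
# Tame representations of all dimensions over all local rings, for random triples of primes

Let `p` be an odd prime and let `a`, `b` be distinct primes `≡ 1` modulo `p`, such that `a` is not a
`p`-th power modulo `b` or `b` is not a `p`-th power modulo `a`. Then for at least the proportion
`(1 - 1 / p) ^ 2` of all primes `c ≡ 1` modulo `p` there is a finite quotient of the absolute Galois
group of `ℚ` through which all continuous residually unipotent representations of all dimensions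
over all Noetherian local rings of residue characteristic `p` factor, which are unramified at `p` and
at all primes `≡ 1` modulo `p` except `a`, `b`, `c`.

Proof. By Chebotarev's theorem (library) the residue symbols between `c` and `a`, `b`, in both
directions, are jointly equidistributed modulo the linear relations, and the triples for which they
satisfy the criterion of `MP_f68ac8_nt.ThreeTamePrimes` are counted; the powers of `p` which divide
`a - 1`, `b - 1`, `c - 1` are arbitrary.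
-/

set_option autoImplicit false

open NumberField IsLocalRing Filter

namespace Pool.Agent.Results.MP_924d78_nt.RandomTriples

/-- the absolute Galois group of `ℚ`, with the Krull topology -/
abbrev AbsGal : Type := Gal(AlgebraicClosure ℚ/ℚ)

/-- `τ` lies in the inertia group at the ideal `P` of the ring of all algebraic integers. -/
def InInertia (P : Ideal (𝓞 (AlgebraicClosure ℚ))) (τ : AbsGal) : Prop :=
  ∀ x : 𝓞 (AlgebraicClosure ℚ), τ • x - x ∈ P

/-- `ρ` is trivial on the inertia groups at all primes above `p` and above all prime numbers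
`l` with `p ∣ l - 1` that are not in `T`. -/
def UnramifiedOutside (p : ℕ) (T : Set ℕ) {E : Type} [Group E] (ρ : AbsGal →* E) : Prop :=
  ∀ P : Ideal (𝓞 (AlgebraicClosure ℚ)), P.IsMaximal → ∀ l : ℕ, l.Prime →
    (l : 𝓞 (AlgebraicClosure ℚ)) ∈ P → (l = p ∨ (p ∣ l - 1 ∧ l ∉ T)) →
    ∀ τ, InInertia P τ → ρ τ = 1

/-- The reductions of all `ρ g - 1` are nilpotent. -/
def ResiduallyUnipotent {n : ℕ} {A : Type} [CommRing A] [IsLocalRing A]
    (ρ : AbsGal →* GL (Fin n) A) : Prop :=
  ∀ g, ∃ M : ℕ, ∀ i j, (((ρ g : Matrix (Fin n) (Fin n) A) - 1) ^ M) i j ∈ maximalIdeal A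

/-- There is an open normal subgroup `N` of the absolute Galois group of `ℚ` which lies in the kernel
of every continuous residually unipotent representation of any dimension over any Noetherian local
ring of residue characteristic `p` which is unramified outside `T`. -/
def FiniteTame (p : ℕ) (T : Set ℕ) : Prop :=
  ∃ N : Subgroup AbsGal, N.Normal ∧ IsOpen (N : Set AbsGal) ∧
    ∀ (n : ℕ) (A : Type) [CommRing A] [IsLocalRing A] [IsNoetherianRing A] [TopologicalSpace A],
      IsAdic (maximalIdeal A) → (p : A) ∈ maximalIdeal A →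
      ∀ ρ : AbsGal →* GL (Fin n) A, Continuous ρ → ResiduallyUnipotent ρ →
        UnramifiedOutside p T ρ → ∀ g ∈ N, ρ g = 1

open Classical in
/-- the primes `c ≤ x`, `c ≡ 1` modulo `p` -/
noncomputable def primesOne (p x : ℕ) : Finset ℕ :=
  (Finset.range (x + 1)).filter fun c => c.Prime ∧ p ∣ c - 1

theorem primesOne_eq (p x : ℕ) [Fact p.Prime] : primesOne p x = Pool.Agent.Q202.RT.P1 p x := by
  ext c
  unfold primesOne
  rw [Pool.Agent.Q202.RT.mem_P1, Finset.mem_filter, Finset.mem_range]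
  constructor
  · rintro ⟨h1, h2⟩
    exact ⟨by omega, h2⟩
  · rintro ⟨h1, h2⟩
    exact ⟨by omega, h2⟩

theorem fin_of {p : ℕ} [Fact p.Prime] (hp2 : p ≠ 2)
    {χ : ∀ j : ℕ, (ZMod j)ˣ →* Multiplicative (ZMod p)} {a b c : ℕ}
    (t : Pool.Agent.N829.PW.Tri p χ) (ht : t.l = ![a, b, c]) : FiniteTame p {a, b, c} := by
  classical
  have hex : ∀ i, ∃ m, ¬ p ^ (m + 1) ∣ t.l i - 1 := fun i =>
    (Pool.Agent.N829.PW.exists_level (p := p) (t.hl i).1.two_le).imp fun m h => h.2
  choose m hm using hex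
  obtain ⟨M, hM⟩ : ∃ M, M = m 0 + m 1 + m 2 := ⟨_, rfl⟩
  have hle : ∀ i, m i ≤ M := by
    rw [Fin.forall_fin_succ, Fin.forall_fin_two]
    refine ⟨?_, ?_, ?_⟩
    · omega
    · show m 1 ≤ M
      omega
    · show m 2 ≤ M
      omega
  have hM' : ∀ i, ¬ p ^ (M + 1) ∣ t.l i - 1 := fun i h =>
    hm i ((pow_dvd_pow p (by have := hle i; omega)).trans h)
  have hT : ∀ l, l ∈ t.T ↔ l ∈ ({a, b, c} : Set ℕ) := by
    intro l
    show l ∈ Finset.univ.image t.l ↔ _
    rw [ht]
    simp only [Finset.mem_image, Finset.mem_univ, true_and, Set.mem_insert_iff,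
      Set.mem_singleton_iff]
    rw [Fin.exists_fin_succ, Fin.exists_fin_two]
    exact ⟨fun h => by
      rcases h with h | h | h
      · exact Or.inl h.symm
      · exact Or.inr (Or.inl h.symm)
      · exact Or.inr (Or.inr h.symm), fun h => by
      rcases h with h | h | h
      · exact Or.inl h.symm
      · exact Or.inr (Or.inl h.symm)
      · exact Or.inr (Or.inr h.symm)⟩
  obtain ⟨N, hN1, hN2, hN3, hN4⟩ := Pool.Agent.N829.PW.exists_max_rho (K := ℚ) (p := p)
    (S := Pool.Agent.N829.PW.SQ p t.T) (B := (p ^ 3) ^ (4 * (2 * M + 1)))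
    (fun E _ _ hE f hfs hfo hur => Pool.Agent.N829.PW.tri_fin hp2 t hM' hE f hfs hfo hur)
  refine ⟨N, hN1, hN2, ?_⟩
  intro n A _ _ _ _ hA hpA ρ hρ hres hur g hg
  refine hN4 n A ρ hpA (fun i => Pool.Agent.TH831.NA.cts_memN hA hρ i)
    (fun g => (hres g).imp fun M h => h) ?_ g hg
  refine Pool.Agent.N829.PW.ur_of ρ fun P hP l hl hlP h τ hτ => ?_
  refine hur P hP l hl hlP ?_ τ hτ
  rcases h with h | ⟨h1, h2⟩
  · exact Or.inl h
  · exact Or.inr ⟨h1, fun h3 => h2 ((hT l).2 h3)⟩

theorem lk_ne {p : ℕ} [Fact p.Prime] {χ : ∀ j : ℕ, (ZMod j)ˣ →* Multiplicative (ZMod p)}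
    (hχ : Pool.Agent.Q202.RT.Kr χ) {a b : ℕ} (ha : a.Prime) (hb : b.Prime) (hpb : p ∣ b - 1)
    (hab : a ≠ b) (h : ¬ ∃ y : ZMod b, y ^ p = (a : ZMod b)) :
    Pool.Agent.W569.TG.lk χ a b ≠ 0 := by
  have hp : p.Prime := Fact.out
  have : Fact b.Prime := ⟨hb⟩
  have hco : Nat.Coprime a b := (Nat.coprime_primes ha hb).2 hab
  intro h0
  rw [Pool.Agent.N829.PW.lk_eq χ (ZMod.unitOfCoprime a hco) (ZMod.coe_unitOfCoprime a hco) hco,
    toAdd_eq_zero, (hχ b hb hpb).2] at h0
  have hmul : p * ((b - 1) / p) = b - 1 := Nat.mul_div_cancel' hpb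
  have hN0 : (b - 1) / p ≠ 0 := by
    intro h
    rw [h, mul_zero] at hmul
    have := hb.two_le
    omega
  have hcard : Nat.card (ZMod b)ˣ = p * ((b - 1) / p) := by
    rw [hmul, Nat.card_eq_fintype_card, ZMod.card_units_eq_totient, Nat.totient_prime hb]
  obtain ⟨y, hy⟩ := Pool.Agent.TH146.FM.exists_root hN0 hcard _ h0
  apply h
  refine ⟨(y : ZMod b), ?_⟩
  have := congrArg (fun u : (ZMod b)ˣ => (u : ZMod b)) hy
  simpa using this

open Classical in
/-- **Random triples.** Let `p` be an odd prime, and let `a`, `b` be distinct primes `≡ 1` modulo `p`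
that are not both `p`-th powers modulo each other. For all `ε > 0` and all large `x` the proportion
of the primes `c ≤ x`, `c ≡ 1` modulo `p`, with `FiniteTame p {a, b, c}` is at least
`(1 - 1 / p) ^ 2 - ε`. -/
theorem result (p : ℕ) [Fact p.Prime] (hp2 : p ≠ 2) (a b : ℕ) (ha : a.Prime ∧ p ∣ a - 1)
    (hb : b.Prime ∧ p ∣ b - 1) (hab : a ≠ b)
    (h : ¬ ((∃ y : ZMod b, y ^ p = (a : ZMod b)) ∧ ∃ y : ZMod a, y ^ p = (b : ZMod a)))
    (ε : ℝ) (hε : 0 < ε) :
    ∀ᶠ x : ℕ in atTop, ((1 - 1 / (p : ℝ)) ^ 2 - ε) * ((primesOne p x).card : ℝ) ≤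
      (((primesOne p x).filter fun c => c ≠ a ∧ c ≠ b ∧ FiniteTame p {a, b, c}).card : ℝ) := by
  obtain ⟨χ, hχ⟩ := Pool.Agent.TH146.FM.exists_chi p
  have hl : Pool.Agent.W569.TG.lk χ a b ≠ 0 ∨ Pool.Agent.W569.TG.lk χ b a ≠ 0 := by
    rw [not_and_or] at h
    rcases h with h | h
    · exact Or.inl (lk_ne hχ ha.1 hb.1 hb.2 hab h)
    · exact Or.inr (lk_ne hχ hb.1 ha.1 ha.2 hab.symm h)
  filter_upwards [Pool.Agent.N829.PW.dens hp2 χ hχ ha.1 hb.1 ha.2 hb.2 hab hl ε hε] with x hx
  rw [primesOne_eq]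
  refine hx.trans (Nat.cast_le.2 (Finset.card_le_card ?_))
  intro c hc
  rw [Finset.mem_filter] at hc ⊢
  obtain ⟨h1, h2, h3, t, ht⟩ := hc
  exact ⟨h1, h2.symm, h3.symm, fin_of hp2 t ht⟩

end Pool.Agent.Results.MP_924d78_nt.RandomTriples
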